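import Pool.Agent.W401.Gal.IrrMain

/-!
# Irreducibility of Galois representations attached to coefficients of bounded mean square
-/

set_option autoImplicit false

namespace Pool.Agent.Results.MP_fa5bba_nt.BoundedMeanSquare

open NumberField IsDedekindDomain Polynomial Filter Topology Pool.Agent.W401.Cheb
  Pool.Agent.W401.Gal

theorem result (K : Type) [Field K] [NumberField K] (F : Type) [Field F] [NumberField F]
    (n : ℕ) (hn : 0 < n) (S : Set (HeightOneSpectrum (𝓞 K))) (hS : S.Finite)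
    (A : HeightOneSpectrum (𝓞 K) → (𝓞 F)[X]) (C : ℝ)
    (hRS : ∀ s : F →+* ℂ, ∀ᶠ N : ℕ in atTop,
      sumsq S (fun v => s ((tc n A v : 𝓞 F) : F)) N ≤ C * Nat.primeCounting N)
    (ι : F →+* ℂ) (c : ℝ) (hc : c < 2) (hc2 : ∃ᶠ N : ℕ in atTop,
      sumsq S (fun v => ι ((tc n A v : 𝓞 F) : F)) N ≤ c * Nat.primeCounting N)
    (E : Type) [Field E] [TopologicalSpace E] [IsTopologicalRing E] [T2Space E]
    (j : E →+* ℂ) (r : 𝓞 F →+* E) (hr : ∀ a : 𝓞 F, j (r a) = ι (a : F))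
    (ρ : GK K →* GL (Fin n) E) (hcont : Continuous ρ) (hsem : Semis ρ) (hatt : Attached S A r ρ)
    (W : Submodule E (Fin n → E))
    (hW : ∀ g : GK K, ∀ w ∈ W, (ρ g : Matrix (Fin n) (Fin n) E).mulVec w ∈ W) :
    W = ⊥ ∨ W = ⊤ :=
  irreducible_of_meansq chebK Pool.Agent.W401.Frob.main hn hS A C hRS ι hc hc2 j r hr ρ hcont hsem
    hatt W hW

end Pool.Agent.Results.MP_fa5bba_nt.BoundedMeanSquare
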