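import Pool.Agent.W522.R.R2

/-!
# Irreducibility of polarized Galois representations over `ℚ` from one generic Satake parameter
-/

set_option autoImplicit false

namespace Pool.Agent.Results.MP_fa5bba_nt.GenericUpToDualityPlace

open Polynomial NumberField IsDedekindDomain Pool.Agent.W522.R
open Pool.Agent.W522.E (Gk Choice Ine IsFrob)

theorem result (P : Choice ℚ) (S : Set (HeightOneSpectrum (𝓞 ℚ)))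
    (sat : HeightOneSpectrum (𝓞 ℚ) → ℂ[X])
    (v : HeightOneSpectrum (𝓞 ℚ)) (hv : v ∉ S) (φ : Gk ℚ) (hφ : IsFrob P v φ) (c : ℂ)
    (hgen : GenericUpToDuality (sat v) c (Ideal.absNorm v.asIdeal))
    (C E : ℕ → Type) [∀ ℓ, Field (C ℓ)] [∀ ℓ, TopologicalSpace (C ℓ)]
    [∀ ℓ, AddCommGroup (E ℓ)] [∀ ℓ, Module (C ℓ) (E ℓ)] [∀ ℓ, FiniteDimensional (C ℓ) (E ℓ)]
    (hDR : ∀ ℓ : ℕ, ℓ.Prime → ∀ R : PolRep P S sat ℓ (C ℓ) (E ℓ),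
      ArithmeticDeterminants P S ℓ R.ρ)
    (hcrit : ∃ L : Set ℕ, DensityOne L ∧ ∀ ℓ ∈ L, ℓ.Prime → Criterion P S sat ℓ (C ℓ) (E ℓ)) :
    (∀ ℓ : ℕ, ℓ.Prime → (ℓ : 𝓞 ℚ) ∉ v.asIdeal → ∀ R : PolRep P S sat ℓ (C ℓ) (E ℓ),
      R.ι (R.μ φ⁻¹) = c → ∀ W, Stable R.ρ W → Nondeg R.B W) ∧
    ∃ L : Set ℕ, DensityOne L ∧ ∀ ℓ ∈ L, ℓ.Prime → (ℓ : 𝓞 ℚ) ∉ v.asIdeal →
      ∀ R : PolRep P S sat ℓ (C ℓ) (E ℓ), R.ι (R.μ φ⁻¹) = c → Irreducible R.ρ := by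
  refine ⟨fun ℓ hp hℓ R hc W hW => nondeg_of_generic P S sat hv hℓ hφ hgen R.ι R.ρ R.μ R.B
    R.attached R.polarized (hDR ℓ hp R) hc W hW, ?_⟩
  obtain ⟨L, hL, hLc⟩ := hcrit
  exact ⟨L, hL, fun ℓ hℓL hp hℓ R hc => hLc ℓ hℓL hp R fun W hW _ =>
    nondeg_of_generic P S sat hv hℓ hφ hgen R.ι R.ρ R.μ R.B R.attached R.polarized
      (hDR ℓ hp R) hc W hW⟩

end Pool.Agent.Results.MP_fa5bba_nt.GenericUpToDualityPlace
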